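import Pool.Agent.Results.MP_4b1745_al.OneVariable

/-!
# Division rings that are infinite over the centre have no generalized polynomial identity

Piece C of the project MP_4b1745_al (helper66).
-/

set_option autoImplicit false

namespace Pool.Agent.K7.H69.ML

open Pool.Agent.Results.MP_4b1745_al.OneVariable Finsupp

section
variable {P R : Type*} [Field P] [DivisionRing R] [Algebra P R]

/-- A generalized linear map of finite rank vanishes. -/
theorem finite_rank (hc : ∀ r : R, (∀ s : R, r * s = s * r) → r ∈ Set.range (algebraMap P R))
    (hinf : ¬ FiniteDimensional P R) {I : Type*} (b : I → R) (hb : LinearIndependent P b) :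
    ∀ (n : ℕ) (r : I →₀ R), r.support.card ≤ n → ∀ (E : Submodule P R), FiniteDimensional P E →
      (∀ z, (r.sum fun i a => a * z * b i) ∈ E) → r = 0 := by
  classical
  intro n
  induction n with
  | zero =>
    intro r hr E _ _
    exact Finsupp.card_support_eq_zero.mp (by omega)
  | succ n ih =>
    intro r hr E hE h
    by_contra hne
    obtain ⟨i0, hi0⟩ := Finsupp.support_nonempty_iff.mpr hne
    have hr0 : r i0 ≠ 0 := Finsupp.mem_support_iff.mp hi0
    -- normalise
    set u : R := (r i0)⁻¹ with hu
    have hu0 : u ≠ 0 := inv_ne_zero hr0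
    set q : I →₀ R := r.mapRange (fun a => u * a) (mul_zero u) with hq
    have hq0 : q i0 = 1 := by simp [hq, hu, hr0]
    have hqs : q.support ⊆ r.support := Finsupp.support_mapRange
    have hqE : ∀ z, (q.sum fun i a => a * z * b i) ∈ E.map (LinearMap.mulLeft P u) := by
      intro z
      refine ⟨_, h z, ?_⟩
      rw [hq, Finsupp.sum_mapRange_index (by intro i; simp)]
      simp only [LinearMap.mulLeft_apply, Finsupp.sum, Finset.mul_sum, mul_assoc]
    set E' := E.map (LinearMap.mulLeft P u) with hE'
    have : FiniteDimensional P E' := inferInstance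
    have hcomm : ∀ i a, q i * a = a * q i := by
      intro i a
      set t : I →₀ R := q.mapRange (fun x => x * a - a * x) (by simp) with ht
      have htsub : t.support ⊆ q.support.erase i0 := by
        intro j hj
        rw [Finset.mem_erase]
        refine ⟨?_, Finsupp.support_mapRange hj⟩
        rintro rfl
        have := Finsupp.mem_support_iff.mp hj
        simp [ht, hq0] at this
      have htc : t.support.card ≤ n := by
        have h1 := Finset.card_le_card htsub
        have h2 := Finset.card_le_card hqs
        rw [Finset.card_erase_of_mem (Finsupp.mem_support_iff.mpr (by rw [hq0]; exact one_ne_zero))]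
          at h1
        omega
      have := ih t htc (E' ⊔ E'.map (LinearMap.mulLeft P a)) inferInstance (by
        intro z
        have e : (t.sum fun i x => x * z * b i) =
            (q.sum fun i x => x * (a * z) * b i) - a * (q.sum fun i x => x * z * b i) := by
          rw [ht, Finsupp.sum_mapRange_index (by intro i; simp)]
          simp only [Finsupp.sum, Finset.mul_sum, ← Finset.sum_sub_distrib]
          refine Finset.sum_congr rfl fun j _ => ?_
          noncomm_ring
        rw [e]
        refine Submodule.sub_mem _ (Submodule.mem_sup_left (hqE _)) (Submodule.mem_sup_right ?_)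
        exact ⟨_, hqE z, rfl⟩)
      have h3 : t i = 0 := by rw [this]; rfl
      simp only [ht, Finsupp.mapRange_apply] at h3
      exact sub_eq_zero.mp h3
    choose p hp using fun i => hc (q i) (hcomm i)
    -- the element `u = ∑ q i b i`
    set v : R := q.sum fun i a => a * b i with hv
    have hv0 : v ≠ 0 := by
      intro hv0
      have h1 : ∑ i ∈ q.support, p i • b i = 0 := by
        rw [← hv0, hv, Finsupp.sum]
        refine Finset.sum_congr rfl fun i _ => ?_
        rw [Algebra.smul_def, hp]
      have h2 := linearIndependent_iff'.mp hb q.support p h1 i0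
        (Finsupp.mem_support_iff.mpr (by rw [hq0]; exact one_ne_zero))
      have h3 := hp i0
      rw [h2, hq0, map_zero] at h3
      exact zero_ne_one h3
    have hall : ∀ z, z * v ∈ E' := by
      intro z
      have := hqE z
      convert this using 1
      rw [hv, Finsupp.sum, Finsupp.sum, Finset.mul_sum]
      refine Finset.sum_congr rfl fun i _ => ?_
      rw [hcomm i z, mul_assoc]
    apply hinf
    have htop : E' = ⊤ := by
      rw [eq_top_iff]
      intro z _
      have := hall (z * v⁻¹)
      rwa [mul_assoc, inv_mul_cancel₀ hv0, mul_one] at this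
    rw [htop] at this
    exact Module.finite_def.mpr (Module.finite_def.mp ‹FiniteDimensional P (⊤ : Submodule P R)› |> fun h => by
      simpa using (Submodule.fg_top _).mp h)

end

section words
variable {P R : Type*} [Field P] [DivisionRing R] [Algebra P R]

variable (P R) in
/-- The index set of a basis. -/
abbrev Ix : Type _ := Module.Basis.ofVectorSpaceIndex P R

variable (P R) in
/-- A basis of `R` over `P`. -/
noncomputable def bs : Module.Basis (Ix P R) P R := Module.Basis.ofVectorSpace P R

/-- Formal expressions `∑ c w x b_{w 1} x b_{w 2} ...`. -/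
abbrev Fo (P R : Type*) [Field P] [DivisionRing R] [Algebra P R] : Type _ := List (Ix P R) →₀ R

/-- Left multiplication by the variable. -/
noncomputable def X : Fo P R →+ Fo P R :=
  Finsupp.liftAddHom (fun v : List (Ix P R) =>
    { toFun := fun r => ((bs P R).repr r).sum fun j p => Finsupp.single (j :: v) (algebraMap P R p)
      map_zero' := by simp
      map_add' := fun r s => by
        rw [map_add, Finsupp.sum_add_index']
        · intro j; simp
        · intro j p q; rw [map_add, Finsupp.single_add] })

theorem X_single (v : List (Ix P R)) (r : R) :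
    X (Finsupp.single v r) =
      ((bs P R).repr r).sum fun j p => Finsupp.single (j :: v) (algebraMap P R p) := by
  simp [X]

/-- General evaluation of formal expressions: `S` is an algebra over `R`, `x : S`. -/
noncomputable def Ev {S : Type*} [Ring S] (φ : R →+* S) (x : S) (c : Fo P R) : S :=
  c.sum fun w a => φ a * (w.map fun i => x * φ (bs P R i)).prod

variable {S : Type*} [Ring S]

theorem Ev_single (φ : R →+* S) (x : S) (w : List (Ix P R)) (a : R) :
    Ev φ x (Finsupp.single w a) = φ a * (w.map fun i => x * φ (bs P R i)).prod := by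
  simp [Ev]

theorem Ev_add (φ : R →+* S) (x : S) (c d : Fo P R) : Ev φ x (c + d) = Ev φ x c + Ev φ x d := by
  classical
  unfold Ev
  rw [Finsupp.sum_add_index']
  · intro w; simp
  · intro w a b; rw [map_add, add_mul]

theorem Ev_zero (φ : R →+* S) (x : S) : Ev φ x (0 : Fo P R) = 0 := by simp [Ev]

theorem Ev_sum (φ : R →+* S) (x : S) {ι : Type*} (s : Finset ι) (g : ι → Fo P R) :
    Ev φ x (∑ i ∈ s, g i) = ∑ i ∈ s, Ev φ x (g i) := by
  classical
  induction s using Finset.induction_on with
  | empty => simp [Ev_zero]
  | insert a s ha ih => rw [Finset.sum_insert ha, Finset.sum_insert ha, Ev_add, ih]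

theorem Ev_smul (φ : R →+* S) (x : S) (r : R) (c : Fo P R) :
    Ev φ x (r • c) = φ r * Ev φ x c := by
  unfold Ev
  rw [Finsupp.sum_smul_index' (by intro i; simp)]
  rw [Finsupp.sum, Finsupp.sum, Finset.mul_sum]
  refine Finset.sum_congr rfl fun w _ => ?_
  rw [smul_eq_mul, map_mul, mul_assoc]

theorem Ev_X (φ : R →+* S) (x : S) (hx : ∀ p : P, Commute x (φ (algebraMap P R p))) (c : Fo P R) :
    Ev φ x (X c) = x * Ev φ x c := by
  classical
  induction c using Finsupp.induction_linear with
  | zero => simp [Ev_zero]
  | add c d hc hd => rw [map_add, Ev_add, hc, hd, Ev_add, mul_add]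
  | single v r =>
    rw [X_single, Finsupp.sum, Ev_sum, Ev_single, ← mul_assoc]
    have h1 : φ r = ∑ j ∈ ((bs P R).repr r).support,
        φ (algebraMap P R ((bs P R).repr r j)) * φ (bs P R j) := by
      conv_lhs => rw [← (bs P R).linearCombination_repr r, Finsupp.linearCombination_apply,
        Finsupp.sum, map_sum]
      refine Finset.sum_congr rfl fun j _ => ?_
      rw [Algebra.smul_def, map_mul]
    rw [h1, Finset.mul_sum, Finset.sum_mul]
    refine Finset.sum_congr rfl fun j _ => ?_
    rw [Ev_single, List.map_cons, List.prod_cons, ← mul_assoc, ← mul_assoc, ← mul_assoc,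
      (hx _).eq]

theorem Ev_map {T : Type*} [Ring T] (ψ : S →+* T) (φ : R →+* S) (x : S) (c : Fo P R) :
    ψ (Ev φ x c) = Ev (ψ.comp φ) (ψ x) c := by
  unfold Ev
  rw [Finsupp.sum, Finsupp.sum, map_sum]
  refine Finset.sum_congr rfl fun w _ => ?_
  rw [map_mul, map_list_prod, List.map_map]
  congr 3
  funext i
  simp

/-- The formal derivative of words in direction `z`. -/
noncomputable def Dw (z : R) : List (Ix P R) → Fo P R
  | [] => 0
  | i :: w => Finsupp.single w (z * bs P R i) + X ((bs P R i : R) • Dw z w)

/-- The formal derivative in direction `z`. -/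
noncomputable def D (z : R) (c : Fo P R) : Fo P R := c.sum fun w a => a • Dw z w

open Polynomial in
theorem coeff_word (y z : R) (w : List (Ix P R)) :
    ((w.map fun i => (C y + Polynomial.X * C z) * C (bs P R i : R)).prod).coeff 0 =
        (w.map fun i => y * bs P R i).prod ∧
      ((w.map fun i => (C y + Polynomial.X * C z) * C (bs P R i : R)).prod).coeff 1 =
        Ev (RingHom.id R) y (Dw z w) := by
  induction w with
  | nil => constructor <;> simp [Dw, Ev_zero, Polynomial.coeff_one]
  | cons i w ih =>
    obtain ⟨ih0, ih1⟩ := ih
    set Q := (w.map fun i => (C y + Polynomial.X * C z) * C (bs P R i : R)).prod with hQ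
    have e : ((i :: w).map fun i => (C y + Polynomial.X * C z) * C (bs P R i : R)).prod =
        C (y * bs P R i) * Q + Polynomial.X * (C (z * bs P R i) * Q) := by
      rw [List.map_cons, List.prod_cons, ← hQ, C_mul, C_mul]
      noncomm_ring
    rw [e, coeff_add, coeff_add, coeff_C_mul, coeff_C_mul, coeff_X_mul, coeff_C_mul,
      Polynomial.mul_coeff_zero, coeff_X_zero, zero_mul, add_zero, ih0, ih1, List.map_cons,
      List.prod_cons]
    refine ⟨rfl, ?_⟩
    rw [Dw, Ev_add, Ev_single, Ev_X (RingHom.id R) y (fun p => (Algebra.commutes p y).symm), Ev_smul]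
    simp only [RingHom.id_apply]
    rw [add_comm, mul_assoc y]

open Polynomial in
theorem coeff_one_Ev (y z : R) (c : Fo P R) :
    (Ev (C : R →+* R[X]) (C y + Polynomial.X * C z) c).coeff 1 =
      Ev (RingHom.id R) y (D z c) := by
  unfold D
  rw [Finsupp.sum, Ev_sum]
  unfold Ev
  rw [Finsupp.sum, Polynomial.finsetSum_coeff]
  refine Finset.sum_congr rfl fun w _ => ?_
  rw [coeff_C_mul, (coeff_word y z w).2]
  exact (Ev_smul (RingHom.id R) y (c w) (Dw z w)).symm

open Polynomial in
theorem poly_zero [CharZero R] (P : Type*) [Field P] [Algebra P R] (p : R[X])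
    (h : ∀ n : ℕ, p.eval (n : R) = 0) : p = 0 := by
  have : CharZero P := by
    refine ⟨fun m n hmn => ?_⟩
    have h1 : algebraMap P R (m : P) = algebraMap P R (n : P) := by rw [hmn]
    rw [map_natCast, map_natCast] at h1
    exact_mod_cast h1
  ext k
  rw [coeff_zero]
  by_contra hk
  have hk' : p.coeff k ≠ 0 := hk
  rw [Ne, ← Module.forall_dual_apply_eq_zero_iff P] at hk'
  push Not at hk'
  obtain ⟨f, hf⟩ := hk'
  set q : P[X] := ∑ j ∈ p.support, monomial j (f (p.coeff j)) with hq
  have hqc : ∀ j, q.coeff j = f (p.coeff j) := by
    intro j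
    rw [hq, finsetSum_coeff]
    simp only [coeff_monomial]
    rw [Finset.sum_ite_eq']
    split_ifs with hj
    · rfl
    · rw [Polynomial.notMem_support_iff.mp hj, map_zero]
  have hq0 : q = 0 := by
    apply Polynomial.eq_zero_of_infinite_isRoot
    apply Set.Infinite.mono _ (Set.infinite_range_of_injective (Nat.cast_injective (R := P)))
    rintro _ ⟨n, rfl⟩
    change q.eval (n : P) = 0
    have h1 := congrArg f (h n)
    rw [map_zero, eval_eq_sum, Polynomial.sum, map_sum] at h1
    rw [← h1, hq, eval_finsetSum]
    refine Finset.sum_congr rfl fun j _ => ?_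
    rw [eval_monomial]
    have e : p.coeff j * (n : R) ^ j = ((n : P) ^ j) • p.coeff j := by
      rw [Algebra.smul_def, map_pow, map_natCast]
      exact ((Nat.cast_commute n (p.coeff j)).pow_left j).eq.symm
    rw [e, map_smul, smul_eq_mul, mul_comm]
  apply hf
  rw [← hqc, hq0, coeff_zero]

open Polynomial in
theorem Ev_D [CharZero R] (c : Fo P R) (h : ∀ y, Ev (RingHom.id R) y c = 0) (y z : R) :
    Ev (RingHom.id R) y (D z c) = 0 := by
  rw [← coeff_one_Ev, poly_zero P (Ev (C : R →+* R[X]) (C y + Polynomial.X * C z) c), coeff_zero]
  intro n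
  let ψ : R[X] →+* R := Polynomial.eval₂RingHom' (RingHom.id R) (n : R)
    (fun a => (Nat.cast_commute n (RingHom.id R a)).symm)
  have e : (Ev (C : R →+* R[X]) (C y + Polynomial.X * C z) c).eval (n : R) =
      ψ (Ev (C : R →+* R[X]) (C y + Polynomial.X * C z) c) := rfl
  rw [e, Ev_map]
  have e2 : ψ.comp (C : R →+* R[X]) = RingHom.id R := by
    ext a
    simp [ψ]
  rw [e2]
  exact h _

/-- The coefficients of `X c` are scalars. -/
theorem X_scalar (c : Fo P R) (v : List (Ix P R)) : X c v ∈ Set.range (algebraMap P R) := by
  classical
  induction c using Finsupp.induction_linear with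
  | zero => exact ⟨0, by simp⟩
  | add c d hc hd =>
    obtain ⟨p, hp⟩ := hc
    obtain ⟨q, hq⟩ := hd
    exact ⟨p + q, by rw [map_add, map_add, Finsupp.add_apply, hp, hq]⟩
  | single w r =>
    rw [X_single, Finsupp.sum, Finsupp.finsetSum_apply]
    simp only [Finsupp.single_apply]
    refine ⟨∑ j ∈ ((bs P R).repr r).support, if j :: w = v then (bs P R).repr r j else 0, ?_⟩
    rw [map_sum]
    refine Finset.sum_congr rfl fun j _ => ?_
    split_ifs <;> simp

theorem X_len (c : Fo P R) (n : ℕ) (h : ∀ w ∈ c.support, w.length ≤ n) :
    ∀ w ∈ (X c).support, w.length ≤ n + 1 := by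
  classical
  intro w hw
  have e : X c = ∑ v ∈ c.support, X (Finsupp.single v (c v)) := by
    conv_lhs => rw [← Finsupp.sum_single c, Finsupp.sum, map_sum]
  rw [e] at hw
  obtain ⟨v, hv, hw⟩ := Finset.mem_biUnion.mp (Finsupp.support_finsetSum hw)
  rw [X_single] at hw
  obtain ⟨j, hj, hw⟩ := Finset.mem_biUnion.mp (Finsupp.support_finsetSum hw)
  have := Finsupp.support_single_subset hw
  rw [Finset.mem_singleton] at this
  rw [this, List.length_cons]
  have := h v hv
  omega

theorem Dw_len (z : R) (w : List (Ix P R)) : ∀ v ∈ (Dw z w).support, v.length + 1 ≤ w.length := by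
  classical
  induction w with
  | nil => intro v hv; simp [Dw] at hv
  | cons i w ih =>
    intro v hv
    rw [Dw] at hv
    rw [List.length_cons]
    rcases Finset.mem_union.mp (Finsupp.support_add hv) with h | h
    · have := Finsupp.support_single_subset h
      rw [Finset.mem_singleton] at this
      rw [this]
    · cases w with
      | nil => simp [Dw] at h
      | cons k w =>
        have := X_len ((bs P R i : R) • Dw z (k :: w)) w.length (by
          intro u hu
          have := ih u (Finsupp.support_smul hu)
          rw [List.length_cons] at this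
          omega) v h
        rw [List.length_cons]
        omega

theorem D_len (z : R) (c : Fo P R) (n : ℕ) (h : ∀ w ∈ c.support, w.length ≤ n + 1) :
    ∀ v ∈ (D z c).support, v.length ≤ n := by
  classical
  intro v hv
  obtain ⟨w, hw, hv⟩ := Finset.mem_biUnion.mp (Finsupp.support_finsetSum hv)
  have := Dw_len z w v (Finsupp.support_smul hv)
  have := h w hw
  omega

/-- The main part of `Dw z w v`. -/
noncomputable def mainPart (z : R) (v : List (Ix P R)) : List (Ix P R) → R
  | [] => 0
  | i :: w => open Classical in if w = v then z * bs P R i else 0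

theorem Dw_apply (z : R) (v w : List (Ix P R)) :
    ∃ p : P, Dw z w v = mainPart z v w + algebraMap P R p := by
  classical
  cases w with
  | nil => exact ⟨0, by simp [Dw, mainPart]⟩
  | cons i w =>
    obtain ⟨p, hp⟩ := X_scalar ((bs P R i : R) • Dw z w) v
    refine ⟨p, ?_⟩
    rw [Dw, Finsupp.add_apply, ← hp, mainPart, Finsupp.single_apply]

/-- No generalized polynomial identity, formal version. -/
theorem formal [CharZero R]
    (hc : ∀ r : R, (∀ s : R, r * s = s * r) → r ∈ Set.range (algebraMap P R))
    (hinf : ¬ FiniteDimensional P R) (n : ℕ) :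
    ∀ c : Fo P R, (∀ w ∈ c.support, w.length ≤ n) → (∀ y, Ev (RingHom.id R) y c = 0) → c = 0 := by
  classical
  induction n with
  | zero =>
    intro c hlen h
    have hs : c = Finsupp.single [] (c []) := by
      ext w
      rw [Finsupp.single_apply]
      split_ifs with hw
      · rw [hw]
      · by_contra hne
        have := hlen w (Finsupp.mem_support_iff.mpr hne)
        exact hw (List.length_eq_zero_iff.mp (by omega)).symm
    have h0 := h 0
    rw [hs, Ev_single] at h0
    simp only [RingHom.id_apply, List.map_nil, List.prod_nil, mul_one] at h0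
    rw [hs, h0, Finsupp.single_zero]
  | succ n ih =>
    intro c hlen h
    have hD : ∀ z, D z c = 0 := fun z => ih _ (D_len z c n hlen) (fun y => Ev_D c h y z)
    -- the coefficients of the words `i :: v` vanish
    have hcons : ∀ (v : List (Ix P R)) (i : Ix P R), c (i :: v) = 0 := by
      intro v
      have hinj : Function.Injective (fun i : Ix P R => i :: v) := by
        intro i j hij
        exact (List.cons.inj hij).1
      set r : Ix P R →₀ R := c.comapDomain (fun i => i :: v) hinj.injOn with hr
      suffices hr0 : r = 0 by
        intro i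
        have : r i = 0 := by rw [hr0]; rfl
        rwa [hr, Finsupp.comapDomain_apply] at this
      refine finite_rank hc hinf (fun i => (bs P R i : R)) (bs P R).linearIndependent _ r le_rfl
        (Submodule.span P ((fun w => c w) '' (c.support : Set (List (Ix P R))))) ?_ ?_
      · exact FiniteDimensional.span_of_finite P ((Finset.finite_toSet _).image _)
      · intro z
        have h1 : ∑ w ∈ c.support, c w * Dw z w v = 0 := by
          have := congrArg (fun d : Fo P R => d v) (hD z)
          simp only [D, Finsupp.sum, Finsupp.finsetSum_apply, Finsupp.smul_apply,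
            Finsupp.zero_apply, smul_eq_mul] at this
          exact this
        choose p hp using fun w => Dw_apply z v w
        have h2 : (∑ w ∈ c.support, c w * mainPart z v w) =
            - ∑ w ∈ c.support, p w • c w := by
          rw [eq_neg_iff_add_eq_zero, ← Finset.sum_add_distrib, ← h1]
          refine Finset.sum_congr rfl fun w _ => ?_
          rw [hp w, mul_add, Algebra.smul_def, Algebra.commutes]
        have h3 : (r.sum fun i a => a * z * bs P R i) =
            ∑ w ∈ c.support, c w * mainPart z v w := by
          rw [Finsupp.sum, hr]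
          change ∑ i ∈ c.support.preimage (fun i => i :: v) hinj.injOn, _ = _
          rw [← Finset.sum_preimage (fun i : Ix P R => i :: v) c.support hinj.injOn
            (fun w => c w * mainPart z v w)]
          · refine Finset.sum_congr rfl fun i _ => ?_
            rw [Finsupp.comapDomain_apply, mainPart, if_pos rfl, mul_assoc]
          · intro w _ hw
            cases w with
            | nil => simp [mainPart]
            | cons j u =>
              by_cases hu : u = v
              · exact absurd ⟨j, by rw [hu]⟩ hw
              · rw [mainPart, if_neg hu, mul_zero]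
        rw [h3, h2]
        refine Submodule.neg_mem _ (Submodule.sum_mem _ fun w hw => ?_)
        exact Submodule.smul_mem _ _ (Submodule.subset_span ⟨w, hw, rfl⟩)
    refine ih c ?_ h
    intro w hw
    cases w with
    | nil => simp
    | cons i v => exact absurd (hcons v i) (Finsupp.mem_support_iff.mp hw)

/-- The expression in the free product. -/
theorem exists_formal (f : FreeOver P R Unit) :
    ∃ c : Fo P R, f = Ev (const P R Unit : R →+* FreeOver P R Unit) (var P R Unit ()) c := by
  have key : ∀ f : FreeOver P R Unit, ∀ c : Fo P R, ∃ d : Fo P R,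
      f * Ev (const P R Unit : R →+* FreeOver P R Unit) (var P R Unit ()) c =
        Ev (const P R Unit : R →+* FreeOver P R Unit) (var P R Unit ()) d := by
    intro f
    induction f using induct with
    | hc a => intro c; exact ⟨a • c, (Ev_smul _ _ a c).symm⟩
    | hv i =>
      intro c
      refine ⟨X c, (Ev_X _ _ (fun p => ?_) c).symm⟩
      have : (const P R Unit : R →+* FreeOver P R Unit) (algebraMap P R p) =
          algebraMap P (FreeOver P R Unit) p := (const P R Unit).commutes p
      rw [this]
      exact (Algebra.commutes p _).symm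
    | hadd f g hf hg =>
      intro c
      obtain ⟨d, hd⟩ := hf c
      obtain ⟨e, he⟩ := hg c
      exact ⟨d + e, by rw [add_mul, hd, he, Ev_add]⟩
    | hmul f g hf hg =>
      intro c
      obtain ⟨d, hd⟩ := hg c
      obtain ⟨e, he⟩ := hf d
      exact ⟨e, by rw [mul_assoc, hd, he]⟩
  obtain ⟨d, hd⟩ := key f (Finsupp.single [] 1)
  refine ⟨d, ?_⟩
  rw [← hd, Ev_single]
  simp

end words

/-- Division rings that are infinite-dimensional over the centre have no generalized polynomial
identity: a generalized polynomial in one variable that takes only one value is a constant. -/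
theorem gpi {P R : Type*} [Field P] [DivisionRing R] [Algebra P R] [CharZero R]
    (hc : ∀ r : R, (∀ s : R, r * s = s * r) → r ∈ Set.range (algebraMap P R))
    (hinf : ¬ FiniteDimensional P R) (f : FreeOver P R Unit)
    (hf : f ∉ Set.range (const P R Unit)) :
    ∃ y z : R, evalAt (fun _ : Unit => y) f ≠ evalAt (fun _ : Unit => z) f := by
  by_contra hcon
  push Not at hcon
  apply hf
  set k := evalAt (fun _ : Unit => (0 : R)) f with hk
  refine ⟨k, ?_⟩
  obtain ⟨c, hcc⟩ := exists_formal (f - const P R Unit k)
  have h0 : c = 0 := by
    refine formal hc hinf (c.support.sup List.length) c (fun w hw => Finset.le_sup hw) ?_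
    intro y
    have h1 : evalAt (fun _ : Unit => y) (f - const P R Unit k) = 0 := by
      rw [map_sub, hcon y 0, ← hk]
      change k - lift (AlgHom.id P R) (fun _ : Unit => y) (const P R Unit k) = 0
      rw [lift_const]
      simp
    rw [hcc] at h1
    have h2 := Ev_map ((evalAt (fun _ : Unit => y) : FreeOver P R Unit →ₐ[P] R) :
      FreeOver P R Unit →+* R) (const P R Unit : R →+* FreeOver P R Unit) (var P R Unit ()) c
    have h3 : ((evalAt (fun _ : Unit => y) : FreeOver P R Unit →ₐ[P] R) :
      FreeOver P R Unit →+* R).comp (const P R Unit : R →+* FreeOver P R Unit) = RingHom.id R := by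
      ext a
      exact lift_const (AlgHom.id P R) (fun _ : Unit => y) a
    have h4 : ((evalAt (fun _ : Unit => y) : FreeOver P R Unit →ₐ[P] R) :
      FreeOver P R Unit →+* R) (var P R Unit ()) = y :=
      lift_var (AlgHom.id P R) (fun _ : Unit => y) ()
    rw [h3, h4] at h2
    rw [← h2]
    exact h1
  rw [h0, Ev_zero] at hcc
  exact (sub_eq_zero.mp hcc).symm

end Pool.Agent.K7.H69.ML
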